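import Mathlib
import Pool.Agent.TH461.SST.Stms

/-!
Counting lemmas for the cells `(i, j)` such that `p ^ i q ^ j x` is close to zero, and minimal
representations of the rational numbers with denominators dividing `p ^ i q ^ j`.
-/

set_option autoImplicit false
open Finset

namespace Pool.Agent.R203.SC

lemma card_le_length (J : Finset ℕ) {a b : ℝ} (hab : a ≤ b) (h : ∀ j ∈ J, a ≤ j ∧ (j : ℝ) ≤ b) :
    (J.card : ℝ) ≤ b - a + 1 := by
  rcases J.eq_empty_or_nonempty with rfl | hne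
  · simp; linarith
  · have h1 : J ⊆ Finset.Icc (J.min' hne) (J.max' hne) := fun j hj =>
      Finset.mem_Icc.2 ⟨J.min'_le j hj, J.le_max' j hj⟩
    have h2 := Finset.card_le_card h1
    rw [Nat.card_Icc] at h2
    have h3 := (h _ (J.min'_mem hne)).1
    have h4 := (h _ (J.max'_mem hne)).2
    have h5 : J.min' hne ≤ J.max' hne := J.min'_le _ (J.max'_mem hne)
    have h6 : (J.card : ℝ) ≤ ((J.max' hne + 1 - J.min' hne : ℕ) : ℝ) := by exact_mod_cast h2
    rw [Nat.cast_sub (by omega)] at h6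
    push_cast at h6
    linarith

/-- the number of cells in a strip to the right of `(m, n)` -/
lemma card_strip (F : Finset (ℕ × ℕ)) {lp lq s α β : ℝ} (hlp : 0 < lp) (hlq : 0 < lq)
    (hαβ : α ≤ β) (hs : 0 ≤ s) (m : ℕ)
    (h : ∀ u ∈ F, m ≤ u.1 ∧ ((u.1 : ℝ) - m) * lp ≤ s ∧ α ≤ (u.1 : ℝ) * lp + (u.2 : ℝ) * lq ∧
      (u.1 : ℝ) * lp + (u.2 : ℝ) * lq ≤ β) :
    (F.card : ℝ) ≤ (s / lp + 1) * ((β - α) / lq + 1) := by
  classical
  have h1 : F.card = ∑ i ∈ F.image Prod.fst, (F.filter fun u => u.1 = i).card :=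
    Finset.card_eq_sum_card_image Prod.fst F
  have h2 : ∀ i ∈ F.image Prod.fst, ((F.filter fun u => u.1 = i).card : ℝ) ≤ (β - α) / lq + 1 := by
    intro i _
    have e : (F.filter fun u => u.1 = i).card = ((F.filter fun u => u.1 = i).image Prod.snd).card := by
      rw [Finset.card_image_of_injOn]
      intro u hu v hv huv
      simp only [Finset.coe_filter, Set.mem_ofPred_eq] at hu hv
      exact Prod.ext (hu.2.trans hv.2.symm) huv
    rw [e]
    have h3 := card_le_length ((F.filter fun u => u.1 = i).image Prod.snd)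
      (a := (α - i * lp) / lq) (b := (β - i * lp) / lq) (by gcongr) (by
        intro j hj
        obtain ⟨u, hu, rfl⟩ := Finset.mem_image.1 hj
        obtain ⟨hu1, hu2⟩ := Finset.mem_filter.1 hu
        obtain ⟨-, -, h4, h5⟩ := h u hu1
        rw [hu2] at h4 h5
        rw [div_le_iff₀ hlq, le_div_iff₀ hlq]
        constructor <;> linarith)
    have e2 : (β - i * lp) / lq - (α - i * lp) / lq = (β - α) / lq := by ring
    rwa [e2] at h3
  have h3 : ((F.image Prod.fst).card : ℝ) ≤ s / lp + 1 := by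
    have := card_le_length (F.image Prod.fst) (a := (m : ℝ)) (b := m + s / lp)
      (by have : 0 ≤ s / lp := by positivity
          linarith) (by
        intro i hi
        obtain ⟨u, hu, rfl⟩ := Finset.mem_image.1 hi
        obtain ⟨h4, h5, -, -⟩ := h u hu
        refine ⟨by exact_mod_cast h4, ?_⟩
        rw [← le_div_iff₀ hlp] at h5
        linarith)
    linarith
  rw [h1]
  push_cast
  have hb : 0 ≤ (β - α) / lq + 1 := by
    have : 0 ≤ (β - α) / lq := div_nonneg (by linarith) hlq.le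
    linarith
  calc ∑ i ∈ F.image Prod.fst, ((F.filter fun u => u.1 = i).card : ℝ)
      ≤ ∑ _i ∈ F.image Prod.fst, ((β - α) / lq + 1) := Finset.sum_le_sum h2
    _ = ((F.image Prod.fst).card : ℝ) * ((β - α) / lq + 1) := by
        rw [Finset.sum_const, nsmul_eq_mul]
    _ ≤ _ := mul_le_mul_of_nonneg_right h3 hb

lemma den_dvd_of_mul {n : ℕ} (hn : n ≠ 0) {ρ : ℚ} {b : ℤ} (h : (n : ℚ) * ρ = b) : ρ.den ∣ n := by
  have e : ρ = (b : ℚ) / ((n : ℤ) : ℚ) := by
    rw [eq_div_iff (by exact_mod_cast hn)]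
    push_cast
    rw [mul_comm]; exact h
  have := Rat.den_dvd b (n : ℤ)
  rw [Rat.divInt_eq_div, ← e] at this
  exact_mod_cast this

lemma mul_int_of_den_dvd {n : ℕ} {ρ : ℚ} (h : ρ.den ∣ n) : ∃ b : ℤ, (n : ℚ) * ρ = b := by
  obtain ⟨c, rfl⟩ := h
  refine ⟨c * ρ.num, ?_⟩
  push_cast
  have := Rat.den_mul_eq_num ρ
  rw [mul_comm (ρ.den : ℚ), mul_assoc, this]

/-- minimal representation -/
lemma minrep {p q : ℕ} (hp : 2 ≤ p) (hq : 2 ≤ q) (hpq : Nat.Coprime p q) (ρ : ℚ)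
    (h : ∃ i j : ℕ, ∃ b : ℤ, ((p ^ i * q ^ j : ℕ) : ℚ) * ρ = b) :
    ∃ (m n : ℕ) (a : ℤ), (m = 0 ∨ ¬ (p : ℤ) ∣ a) ∧ ρ = (a : ℚ) / ((p : ℚ) ^ m * (q : ℚ) ^ n) ∧
      ∀ (i j : ℕ) (b : ℤ), ((p ^ i * q ^ j : ℕ) : ℚ) * ρ = b → m ≤ i ∧ n ≤ j := by
  classical
  have hne : ∀ i j : ℕ, p ^ i * q ^ j ≠ 0 := fun i j => by positivity
  have hP : ∃ i j : ℕ, ρ.den ∣ p ^ i * q ^ j := by
    obtain ⟨i, j, b, hb⟩ := h
    exact ⟨i, j, den_dvd_of_mul (hne i j) hb⟩
  have hP' : ∃ j i : ℕ, ρ.den ∣ p ^ i * q ^ j := by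
    obtain ⟨i, j, hb⟩ := hP
    exact ⟨j, i, hb⟩
  set m := Nat.find hP with hm
  set n := Nat.find hP' with hn
  obtain ⟨j0, hj0⟩ := Nat.find_spec hP
  obtain ⟨i0, hi0⟩ := Nat.find_spec hP'
  rw [← hm] at hj0
  rw [← hn] at hi0
  have hmi : m ≤ i0 := Nat.find_min' hP ⟨n, hi0⟩
  have hnj : n ≤ j0 := Nat.find_min' hP' ⟨m, hj0⟩
  have hd : ρ.den ∣ p ^ m * q ^ n := by
    have h1 := Nat.dvd_gcd hj0 hi0
    have e1 : p ^ m * q ^ j0 = p ^ m * q ^ n * q ^ (j0 - n) := by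
      rw [mul_assoc, ← pow_add, Nat.add_sub_cancel' hnj]
    have e2 : p ^ i0 * q ^ n = p ^ m * q ^ n * p ^ (i0 - m) := by
      rw [mul_right_comm, ← pow_add, Nat.add_sub_cancel' hmi]
    rw [e1, e2, Nat.gcd_mul_left] at h1
    have h2 : Nat.gcd (q ^ (j0 - n)) (p ^ (i0 - m)) = 1 := Nat.Coprime.pow _ _ hpq.symm
    rwa [h2, mul_one] at h1
  obtain ⟨a, ha⟩ := mul_int_of_den_dvd hd
  refine ⟨m, n, a, ?_, ?_, ?_⟩
  · by_contra hcon
    push Not at hcon
    obtain ⟨hm0, c, hc⟩ := hcon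
    have h3 : ((p ^ (m - 1) * q ^ n : ℕ) : ℚ) * ρ = c := by
      have hp0 : (p : ℚ) ≠ 0 := by positivity
      have e : (p : ℚ) * (((p ^ (m - 1) * q ^ n : ℕ) : ℚ) * ρ) = (p : ℚ) * c := by
        have e3 : ((p ^ m * q ^ n : ℕ) : ℚ) = (p : ℚ) * ((p ^ (m - 1) * q ^ n : ℕ) : ℚ) := by
          have : p ^ m = p * p ^ (m - 1) := by
            rw [← pow_succ']; congr 1; omega
          rw [this]; push_cast; ring
        rw [← mul_assoc, ← e3, ha, hc]
        push_cast; ring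
      exact mul_left_cancel₀ hp0 e
    have h4 := Nat.find_min hP (m := m - 1) (by omega)
    exact h4 ⟨n, den_dvd_of_mul (hne _ _) h3⟩
  · rw [eq_div_iff (by positivity)]
    rw [← ha]; push_cast; ring
  · intro i j b hb
    have h5 := den_dvd_of_mul (hne i j) hb
    exact ⟨Nat.find_min' hP ⟨j, h5⟩, Nat.find_min' hP' ⟨i, h5⟩⟩

end Pool.Agent.R203.SC
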