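import Mathlib
import Pool.Agent.TH461.SST.Stms
import Pool.Agent.R203.SC.Count

/-!
Pointwise bound for the number of cells `(i, j)` in a window for which `p ^ i q ^ j x` is
exponentially close to zero, but not too close.
-/

set_option autoImplicit false
open Finset

namespace Pool.Agent.R203.SC

open Pool.Agent.TH461.SST

/-- the cells `(i, j)` of the window of size `N` with `a ≤ ‖p ^ i q ^ j x‖ ≤ b` -/
def cells (p q : ℕ) (N a b : ℝ) (x : UnitAddCircle) : Set (ℕ × ℕ) :=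
  {u | (u.1 : ℝ) * Real.log p + (u.2 : ℝ) * Real.log q ≤ N ∧ a ≤ ‖(p ^ u.1 * q ^ u.2) • x‖ ∧
    ‖(p ^ u.1 * q ^ u.2) • x‖ ≤ b}

lemma cells_finite {p q : ℕ} (hp : 2 ≤ p) (hq : 2 ≤ q) (N a b : ℝ) (x : UnitAddCircle) :
    (cells p q N a b x).Finite := by
  have hlp : 0 < Real.log p := Real.log_pos (by exact_mod_cast (by omega : 1 < p))
  have hlq : 0 < Real.log q := Real.log_pos (by exact_mod_cast (by omega : 1 < q))
  refine ((Finset.range (⌊N / Real.log p⌋₊ + 1) ×ˢ
    Finset.range (⌊N / Real.log q⌋₊ + 1)).finite_toSet).subset fun u hu => ?_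
  obtain ⟨h1, -, -⟩ := hu
  have h2 : 0 ≤ (u.1 : ℝ) * Real.log p := by positivity
  have h3 : 0 ≤ (u.2 : ℝ) * Real.log q := by positivity
  simp only [Finset.coe_product, Finset.coe_range, Set.mem_prod, Set.mem_Iio]
  constructor
  · apply Nat.lt_succ_of_le
    apply Nat.le_floor
    rw [le_div_iff₀ hlp]; linarith
  · apply Nat.lt_succ_of_le
    apply Nat.le_floor
    rw [le_div_iff₀ hlq]; linarith

lemma exists_theta (x : UnitAddCircle) : ∃ θ : ℝ, 1 ≤ θ ∧ θ < 2 ∧ (θ : UnitAddCircle) = x := by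
  obtain ⟨y, rfl⟩ := QuotientAddGroup.mk_surjective x
  refine ⟨Int.fract y + 1, by linarith [Int.fract_nonneg y], by linarith [Int.fract_lt_one y], ?_⟩
  have e : Int.fract y + 1 = y - ((⌊y⌋ - 1 : ℤ) : ℝ) := by
    rw [Int.fract]; push_cast; ring
  rw [e, AddCircle.coe_sub]
  have : (((⌊y⌋ - 1 : ℤ) : ℝ) : UnitAddCircle) = 0 := by
    rw [AddCircle.coe_eq_zero_iff]
    exact ⟨⌊y⌋ - 1, by simp⟩
  rw [this, sub_zero]

lemma norm_nsmul_theta (n : ℕ) (θ : ℝ) :
    ‖n • (θ : UnitAddCircle)‖ = |(n : ℝ) * θ - round ((n : ℝ) * θ)| := by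
  rw [← AddCircle.coe_nsmul, nsmul_eq_mul, UnitAddCircle.norm_eq]

/-- The cluster inequality on finite sets of rational numbers. -/
lemma cluster_finset {p q : ℕ} (hcl : ClusterStmt p q) {η : ℝ} (hη : 0 < η) :
    ∃ N0 : ℝ, ∀ N : ℝ, N0 ≤ N → 0 < N → ∀ θ : ℝ, 1 ≤ θ → θ < 2 → ∀ (R : Finset ℚ) (a : ℚ → ℤ)
      (m n : ℚ → ℕ) (h : ℚ → ℝ), (∀ ρ ∈ R, m ρ = 0 ∨ ¬ (p : ℤ) ∣ a ρ) →
      (∀ ρ ∈ R, ρ = (a ρ : ℚ) / ((p : ℚ) ^ (m ρ) * (q : ℚ) ^ (n ρ))) → (∀ ρ ∈ R, h ρ ≤ N) →
      (∀ ρ ∈ R, |θ - (ρ : ℝ)| ≤ Real.exp (-(h ρ))) →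
      (∀ ρ ∈ R, (m ρ : ℝ) * Real.log p + (n ρ : ℝ) * Real.log q + η * N ≤ h ρ) →
      ∑ ρ ∈ R, (h ρ - (m ρ : ℝ) * Real.log p - (n ρ : ℝ) * Real.log q) ≤ 2 * N := by
  classical
  set k0 : ℕ := ⌈2 / η⌉₊ + 1 with hk0
  choose N0 hN0 using fun k : ℕ => hcl k η hη
  refine ⟨∑ k ∈ Finset.range (k0 + 1), |N0 k|, fun N hN hNpos θ hθ1 hθ2 R a m n h ha hρ hh hd hs => ?_⟩
  have key : ∀ R' ⊆ R, R'.card ≤ k0 →
      ∑ ρ ∈ R', (h ρ - (m ρ : ℝ) * Real.log p - (n ρ : ℝ) * Real.log q) ≤ 2 * N := by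
    intro R' hR' hcard
    have h1 : N0 R'.card ≤ N := by
      refine le_trans ?_ hN
      refine (le_abs_self _).trans ?_
      exact Finset.single_le_sum (f := fun k => |N0 k|) (fun k _ => abs_nonneg _)
        (Finset.mem_range.2 (by omega))
    set e := R'.equivFin with he
    have hcast : ∀ ρ ∈ R, (ρ : ℝ) = (a ρ : ℝ) / ((p : ℝ) ^ (m ρ) * (q : ℝ) ^ (n ρ)) := by
      intro ρ hρR
      have := hρ ρ hρR
      have h2 : (ρ : ℝ) = (((a ρ : ℚ) / ((p : ℚ) ^ (m ρ) * (q : ℚ) ^ (n ρ)) : ℚ) : ℝ) := by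
        rw [← this]
      rw [h2]; push_cast; rfl
    have hmem : ∀ i : Fin R'.card, ((e.symm i : R') : ℚ) ∈ R := fun i => hR' (e.symm i).2
    have h3 := hN0 R'.card N h1 θ hθ1 hθ2 (fun i => a (e.symm i)) (fun i => m (e.symm i))
      (fun i => n (e.symm i)) (fun i => h (e.symm i)) (fun i => ha _ (hmem i))
      (fun i => hh _ (hmem i))
      (fun i => by
        rw [← hcast _ (hmem i)]; exact hd _ (hmem i))
      (fun i => hs _ (hmem i))
      (fun i j hij => by
        rw [← hcast _ (hmem i), ← hcast _ (hmem j)]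
        intro hc
        have hc' : ((e.symm i : R') : ℚ) = ((e.symm j : R') : ℚ) := by exact_mod_cast hc
        exact hij (e.symm.injective (Subtype.ext hc')))
    have h4 : ∑ i : Fin R'.card, (h (e.symm i) - (m (e.symm i) : ℝ) * Real.log p -
        (n (e.symm i) : ℝ) * Real.log q) =
        ∑ ρ ∈ R', (h ρ - (m ρ : ℝ) * Real.log p - (n ρ : ℝ) * Real.log q) := by
      rw [← Finset.sum_coe_sort R']
      exact Equiv.sum_comp e.symm
        (fun ρ : R' => (h ρ - (m ρ : ℝ) * Real.log p - (n ρ : ℝ) * Real.log q))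
    rw [← h4]; exact h3
  by_cases hR : R.card ≤ k0
  · exact key R (Finset.Subset.refl _) hR
  · exfalso
    obtain ⟨R', hR', hc⟩ := Finset.exists_subset_card_eq (n := k0) (s := R) (by omega)
    have h5 := key R' hR' hc.le
    have h6 : (k0 : ℝ) * (η * N) ≤
        ∑ ρ ∈ R', (h ρ - (m ρ : ℝ) * Real.log p - (n ρ : ℝ) * Real.log q) := by
      rw [← hc, ← nsmul_eq_mul, ← Finset.sum_const]
      refine Finset.sum_le_sum fun ρ hρR => ?_
      have := hs ρ (hR' hρR)
      linarith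
    have h7 : 2 / η < k0 := by
      have := Nat.le_ceil (2 / η)
      rw [hk0]; push_cast; linarith
    rw [div_lt_iff₀ hη] at h7
    nlinarith

/-- **The pointwise bound.** -/
theorem point {p q : ℕ} (hp : 2 ≤ p) (hq : 2 ≤ q) (hpq : Nat.Coprime p q)
    (hcl : ClusterStmt p q) : ∃ C : ℝ, 0 < C ∧ ∀ A η : ℝ, 1 ≤ A → 0 < η → ∃ N₀ : ℝ, ∀ N : ℝ,
      N₀ ≤ N → ∀ x : UnitAddCircle,
        ((cells p q N (Real.exp (-(A * η * N))) (Real.exp (-(η * N))) x).ncard : ℝ) ≤
          C * A * η * N ^ 2 := by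
  classical
  have hlp : 0 < Real.log p := Real.log_pos (by exact_mod_cast (by omega : 1 < p))
  have hlq : 0 < Real.log q := Real.log_pos (by exact_mod_cast (by omega : 1 < q))
  set lp := Real.log p with hlpdef
  set lq := Real.log q with hlqdef
  set P : ℝ := 1 + 1 / lp with hP
  set Q : ℝ := 1 + 1 / lq with hQ
  have hP0 : 0 < P := by positivity
  have hQ0 : 0 < Q := by positivity
  refine ⟨8 * P * Q, by positivity, fun A η hA hη => ?_⟩
  by_cases hAη : A * η ≤ 1
  swap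
  · -- trivial case
    push Not at hAη
    refine ⟨1, fun N hN x => ?_⟩
    have hN0 : 0 < N := by linarith
    have h1 : ((cells p q N (Real.exp (-(A * η * N))) (Real.exp (-(η * N))) x).ncard : ℝ) ≤
        (N / lp + 1) * (N / lq + 1) := by
      have hf := cells_finite hp hq N (Real.exp (-(A * η * N))) (Real.exp (-(η * N))) x
      rw [Set.ncard_eq_toFinset_card _ hf]
      have := card_strip hf.toFinset hlp hlq (α := 0) (β := N) hN0.le hN0.le 0 (by
        intro u hu
        rw [Set.Finite.mem_toFinset] at hu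
        have hu1 : (u.1 : ℝ) * lp + (u.2 : ℝ) * lq ≤ N := hu.1
        have h2 : 0 ≤ (u.1 : ℝ) * lp := by positivity
        have h3 : 0 ≤ (u.2 : ℝ) * lq := by positivity
        refine ⟨Nat.zero_le _, ?_, by linarith, hu1⟩
        push_cast; linarith)
      rwa [sub_zero] at this
    refine h1.trans ?_
    have h2 : N / lp + 1 ≤ P * N := by
      rw [hP, add_mul, one_mul, div_mul_eq_mul_div, one_mul]; linarith
    have h3 : N / lq + 1 ≤ Q * N := by
      rw [hQ, add_mul, one_mul, div_mul_eq_mul_div, one_mul]; linarith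
    have h4 : 0 ≤ N / lq + 1 := by positivity
    calc (N / lp + 1) * (N / lq + 1) ≤ (P * N) * (Q * N) :=
          mul_le_mul h2 h3 h4 (by positivity)
      _ = 1 * (P * Q * N ^ 2) := by ring
      _ ≤ (8 * (A * η)) * (P * Q * N ^ 2) := by
          apply mul_le_mul_of_nonneg_right _ (by positivity)
          linarith
      _ = 8 * P * Q * A * η * N ^ 2 := by ring
  · obtain ⟨N0, hN0⟩ := cluster_finset hcl (η := η / 2) (by linarith)
    refine ⟨max (|N0|) (1 / η), fun N hN x => ?_⟩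
    have hNη : 1 / η ≤ N := (le_max_right _ _).trans hN
    have hNpos : 0 < N := lt_of_lt_of_le (by positivity) hNη
    have hηN : 1 ≤ η * N := by
      rw [div_le_iff₀ hη] at hNη; linarith
    have hη1 : η ≤ 1 := by nlinarith
    obtain ⟨θ, hθ1, hθ2, rfl⟩ := exists_theta x
    set S := cells p q N (Real.exp (-(A * η * N))) (Real.exp (-(η * N))) (θ : UnitAddCircle) with hS
    have hSf : S.Finite := cells_finite hp hq _ _ _ _
    set F := hSf.toFinset with hF
    set D : ℕ × ℕ → ℕ := fun u => p ^ u.1 * q ^ u.2 with hD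
    have hD0 : ∀ u, D u ≠ 0 := fun u => by
      rw [hD]; positivity
    have hD0R : ∀ u, (0 : ℝ) < D u := fun u => by
      have := hD0 u
      positivity
    set r : ℕ × ℕ → ℚ := fun u => (round ((D u : ℝ) * θ) : ℚ) / (D u : ℚ) with hr
    have hlogD : ∀ u : ℕ × ℕ, Real.log (D u) = (u.1 : ℝ) * lp + (u.2 : ℝ) * lq := by
      intro u
      rw [hD]
      push_cast
      rw [Real.log_mul (by positivity) (by positivity), Real.log_pow, Real.log_pow]
    -- the distance
    have hdist : ∀ u : ℕ × ℕ, |θ - (r u : ℝ)| = ‖(D u) • (θ : UnitAddCircle)‖ / (D u : ℝ) := by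
      intro u
      rw [norm_nsmul_theta, hr]
      push_cast
      have h1 := hD0R u
      rw [← abs_of_pos h1, ← abs_div, abs_of_pos h1]
      congr 1
      field_simp
    have hmem : ∀ u ∈ F, (u.1 : ℝ) * lp + (u.2 : ℝ) * lq ≤ N ∧
        Real.exp (-(A * η * N)) ≤ ‖(D u) • (θ : UnitAddCircle)‖ ∧
        ‖(D u) • (θ : UnitAddCircle)‖ ≤ Real.exp (-(η * N)) := by
      intro u hu
      rw [hF, Set.Finite.mem_toFinset] at hu
      exact hu
    -- the representation of the approximants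
    have hrep : ∀ u : ℕ × ℕ, ((p ^ u.1 * q ^ u.2 : ℕ) : ℚ) * r u = (round ((D u : ℝ) * θ) : ℤ) := by
      intro u
      have h1 : ((D u : ℕ) : ℚ) ≠ 0 := by exact_mod_cast hD0 u
      show ((D u : ℕ) : ℚ) * r u = _
      rw [hr]
      field_simp
    have hmin := fun ρ : ℚ => minrep hp hq hpq ρ
    choose! m n a hma hρ hle using hmin
    set h : ℚ → ℝ := fun ρ => -Real.log |θ - (ρ : ℝ)| with hh
    set R := F.image r with hR
    have hRex : ∀ ρ ∈ R, ∃ i j : ℕ, ∃ b : ℤ, ((p ^ i * q ^ j : ℕ) : ℚ) * ρ = b := by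
      intro ρ hρR
      obtain ⟨u, hu, rfl⟩ := Finset.mem_image.1 hρR
      exact ⟨u.1, u.2, _, hrep u⟩
    -- the level of the approximant
    have hlev : ∀ u ∈ F, h (r u) = (u.1 : ℝ) * lp + (u.2 : ℝ) * lq -
        Real.log ‖(D u) • (θ : UnitAddCircle)‖ := by
      intro u hu
      obtain ⟨h1, h2, h3⟩ := hmem u hu
      have h4 : 0 < ‖(D u) • (θ : UnitAddCircle)‖ := lt_of_lt_of_le (Real.exp_pos _) h2
      rw [hh]
      simp only
      rw [hdist u, Real.log_div h4.ne' (hD0R u).ne', hlogD u]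
      ring
    have hlog : ∀ u ∈ F, -(A * η * N) ≤ Real.log ‖(D u) • (θ : UnitAddCircle)‖ ∧
        Real.log ‖(D u) • (θ : UnitAddCircle)‖ ≤ -(η * N) := by
      intro u hu
      obtain ⟨h1, h2, h3⟩ := hmem u hu
      have h4 : 0 < ‖(D u) • (θ : UnitAddCircle)‖ := lt_of_lt_of_le (Real.exp_pos _) h2
      constructor
      · rw [← Real.log_exp (-(A * η * N))]
        exact Real.log_le_log (Real.exp_pos _) h2
      · rw [← Real.log_exp (-(η * N))]
        exact Real.log_le_log h4 h3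
    have hmn : ∀ u ∈ F, m (r u) ≤ u.1 ∧ n (r u) ≤ u.2 := fun u hu =>
      hle (r u) ⟨u.1, u.2, _, hrep u⟩ u.1 u.2 _ (hrep u)
    -- the cluster inequality
    have hAηN : A * η * N ≤ N := by
      have := mul_le_mul_of_nonneg_right hAη hNpos.le
      linarith
    set M : ℝ := (1 + A * η) * N with hM
    have hM1 : N ≤ M := by
      rw [hM]; nlinarith
    have hM2 : M ≤ 2 * N := by rw [hM]; nlinarith
    have hbig : ∀ ρ ∈ R, (m ρ : ℝ) * lp + (n ρ : ℝ) * lq + η * N ≤ h ρ ∧ h ρ ≤ M := by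
      intro ρ hρR
      obtain ⟨u, hu, rfl⟩ := Finset.mem_image.1 hρR
      obtain ⟨h1, h2⟩ := hlog u hu
      obtain ⟨h3, -, -⟩ := hmem u hu
      obtain ⟨h4, h5⟩ := hmn u hu
      rw [hlev u hu]
      have h6 : (m (r u) : ℝ) * lp ≤ (u.1 : ℝ) * lp :=
        mul_le_mul_of_nonneg_right (by exact_mod_cast h4) hlp.le
      have h7 : (n (r u) : ℝ) * lq ≤ (u.2 : ℝ) * lq :=
        mul_le_mul_of_nonneg_right (by exact_mod_cast h5) hlq.le
      constructor
      · linarith
      · rw [hM]; nlinarith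
    have hsum := hN0 M (((le_abs_self N0).trans ((le_max_left _ _).trans hN)).trans hM1)
      (by linarith) θ hθ1 hθ2 R a m n h (fun ρ hρR => hma ρ (hRex ρ hρR))
      (fun ρ hρR => hρ ρ (hRex ρ hρR)) (fun ρ hρR => (hbig ρ hρR).2)
      (fun ρ hρR => by
        obtain ⟨u, hu, rfl⟩ := Finset.mem_image.1 hρR
        have h4 : 0 < ‖(D u) • (θ : UnitAddCircle)‖ := lt_of_lt_of_le (Real.exp_pos _) (hmem u hu).2.1
        have h5 : 0 < |θ - (r u : ℝ)| := by
          rw [hdist u]; exact div_pos h4 (hD0R u)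
        rw [hh]
        simp only [neg_neg]
        rw [Real.exp_log h5])
      (fun ρ hρR => by
        have h1 := (hbig ρ hρR).1
        have h2 : η / 2 * M ≤ η * N := by nlinarith
        linarith)
    set s : ℚ → ℝ := fun ρ => h ρ - (m ρ : ℝ) * lp - (n ρ : ℝ) * lq with hs
    have hs1 : ∀ ρ ∈ R, η * N ≤ s ρ := fun ρ hρR => by
      have := (hbig ρ hρR).1
      rw [hs]; simp only; linarith
    have hsum' : ∑ ρ ∈ R, s ρ ≤ 4 * N := by
      have : ∑ ρ ∈ R, s ρ ≤ 2 * M := hsum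
      linarith
    have hcardR : (R.card : ℝ) ≤ 4 * N := by
      have h1 : (R.card : ℝ) * 1 ≤ ∑ ρ ∈ R, s ρ := by
        rw [← nsmul_eq_mul, ← Finset.sum_const]
        exact Finset.sum_le_sum fun ρ hρR => hηN.trans (hs1 ρ hρR)
      linarith
    -- the count
    rw [Set.ncard_eq_toFinset_card _ hSf]
    have hcount : ∀ ρ ∈ R, ((F.filter fun u => r u = ρ).card : ℝ) ≤
        (s ρ / lp + 1) * ((A * η * N - η * N) / lq + 1) := by
      intro ρ hρR
      have hs0 : 0 ≤ s ρ := by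
        have := hs1 ρ hρR
        linarith
      have h1 := card_strip (F.filter fun u => r u = ρ) hlp hlq (s := s ρ)
        (α := h ρ - A * η * N) (β := h ρ - η * N) (by nlinarith) hs0 (m ρ) (by
          intro u hu
          obtain ⟨hu1, hu2⟩ := Finset.mem_filter.1 hu
          obtain ⟨h1, h2⟩ := hlog u hu1
          obtain ⟨h4, h5⟩ := hmn u hu1
          have h6 := hlev u hu1
          rw [hu2] at h4 h5 h6
          have h7 : (n ρ : ℝ) * lq ≤ (u.2 : ℝ) * lq :=
            mul_le_mul_of_nonneg_right (by exact_mod_cast h5) hlq.le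
          refine ⟨h4, ?_, by linarith, by linarith⟩
          rw [hs]
          simp only
          nlinarith)
      have e : h ρ - η * N - (h ρ - A * η * N) = A * η * N - η * N := by ring
      rwa [e] at h1
    have hfib : F.card = ∑ ρ ∈ R, (F.filter fun u => r u = ρ).card :=
      Finset.card_eq_sum_card_image r F
    have hb1 : (A * η * N - η * N) / lq + 1 ≤ Q * (A * η * N) := by
      have h1 : 1 ≤ A * η * N := by nlinarith
      have h2 : (A * η * N - η * N) / lq ≤ A * η * N / lq :=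
        div_le_div_of_nonneg_right (by linarith) hlq.le
      rw [hQ, add_mul, one_mul, div_mul_eq_mul_div, one_mul]
      linarith
    have hb0 : 0 ≤ (A * η * N - η * N) / lq + 1 := by
      have : 0 ≤ (A * η * N - η * N) / lq := div_nonneg (by nlinarith) hlq.le
      linarith
    calc (F.card : ℝ) = ∑ ρ ∈ R, ((F.filter fun u => r u = ρ).card : ℝ) := by
          rw [hfib]; push_cast; rfl
      _ ≤ ∑ ρ ∈ R, (s ρ / lp + 1) * ((A * η * N - η * N) / lq + 1) := Finset.sum_le_sum hcount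
      _ = (∑ ρ ∈ R, s ρ / lp + R.card) * ((A * η * N - η * N) / lq + 1) := by
          rw [← Finset.sum_mul, Finset.sum_add_distrib, Finset.sum_const, nsmul_eq_mul, mul_one]
      _ ≤ (P * (4 * N)) * (Q * (A * η * N)) := by
          apply mul_le_mul _ hb1 hb0 (by positivity)
          rw [← Finset.sum_div, hP, add_mul, one_mul, div_mul_eq_mul_div, one_mul]
          have := div_le_div_of_nonneg_right hsum' hlp.le
          linarith
      _ = 4 * P * Q * A * η * N ^ 2 := by ring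
      _ ≤ 8 * P * Q * A * η * N ^ 2 := by
          have : 0 ≤ P * Q * A * η * N ^ 2 := by positivity
          nlinarith

end Pool.Agent.R203.SC
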