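import Mathlib
import Pool.Agent.R203.SC.Point

/-!
Measures and periodic orbits: no mass at a single scale.
-/

set_option autoImplicit false
open Finset MeasureTheory

namespace Pool.Agent.R203.SC

/-- a box inside the window, with many cells -/
lemma box {p q : ℕ} (hp : 2 ≤ p) (hq : 2 ≤ q) {N : ℝ} (hN : 0 < N) :
    ∃ W : Finset (ℕ × ℕ), (∀ u ∈ W, (u.1 : ℝ) * Real.log p + (u.2 : ℝ) * Real.log q ≤ N) ∧
      N ^ 2 / (4 * Real.log p * Real.log q) ≤ W.card ∧ 0 < (W.card : ℝ) := by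
  have hlp : 0 < Real.log p := Real.log_pos (by exact_mod_cast (by omega : 1 < p))
  have hlq : 0 < Real.log q := Real.log_pos (by exact_mod_cast (by omega : 1 < q))
  set I := ⌊N / (2 * Real.log p)⌋₊ with hI
  set J := ⌊N / (2 * Real.log q)⌋₊ with hJ
  have hI1 : (I : ℝ) ≤ N / (2 * Real.log p) := Nat.floor_le (by positivity)
  have hJ1 : (J : ℝ) ≤ N / (2 * Real.log q) := Nat.floor_le (by positivity)
  have hI2 : N / (2 * Real.log p) ≤ I + 1 := (Nat.lt_floor_add_one _).le
  have hJ2 : N / (2 * Real.log q) ≤ J + 1 := (Nat.lt_floor_add_one _).le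
  refine ⟨Finset.range (I + 1) ×ˢ Finset.range (J + 1), ?_, ?_, ?_⟩
  · intro u hu
    rw [Finset.mem_product, Finset.mem_range, Finset.mem_range] at hu
    have h1 : (u.1 : ℝ) ≤ I := by exact_mod_cast Nat.lt_succ_iff.1 hu.1
    have h2 : (u.2 : ℝ) ≤ J := by exact_mod_cast Nat.lt_succ_iff.1 hu.2
    have h3 : (u.1 : ℝ) * Real.log p ≤ N / 2 := by
      have := mul_le_mul_of_nonneg_right (h1.trans hI1) hlp.le
      have e : N / (2 * Real.log p) * Real.log p = N / 2 := by field_simp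
      linarith
    have h4 : (u.2 : ℝ) * Real.log q ≤ N / 2 := by
      have := mul_le_mul_of_nonneg_right (h2.trans hJ1) hlq.le
      have e : N / (2 * Real.log q) * Real.log q = N / 2 := by field_simp
      linarith
    linarith
  · rw [Finset.card_product, Finset.card_range, Finset.card_range]
    push_cast
    calc N ^ 2 / (4 * Real.log p * Real.log q) = N / (2 * Real.log p) * (N / (2 * Real.log q)) := by
          field_simp
          norm_num
      _ ≤ _ := mul_le_mul hI2 hJ2 (by positivity) (by positivity)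
  · rw [Finset.card_product, Finset.card_range, Finset.card_range]
    positivity

/-- the pointwise bound for the points of a box -/
lemma filter_le {p q : ℕ} (hp : 2 ≤ p) (hq : 2 ≤ q) {N a b B : ℝ} {x : UnitAddCircle}
    (h : ((cells p q N a b x).ncard : ℝ) ≤ B) (W : Finset (ℕ × ℕ))
    (hW : ∀ u ∈ W, (u.1 : ℝ) * Real.log p + (u.2 : ℝ) * Real.log q ≤ N)
    [DecidablePred fun u : ℕ × ℕ => a ≤ ‖(p ^ u.1 * q ^ u.2) • x‖ ∧ ‖(p ^ u.1 * q ^ u.2) • x‖ ≤ b] :
    ((W.filter fun u => a ≤ ‖(p ^ u.1 * q ^ u.2) • x‖ ∧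
      ‖(p ^ u.1 * q ^ u.2) • x‖ ≤ b).card : ℝ) ≤ B := by
  refine le_trans ?_ h
  rw [← Set.ncard_coe_finset]
  have : (W.filter fun u => a ≤ ‖(p ^ u.1 * q ^ u.2) • x‖ ∧
      ‖(p ^ u.1 * q ^ u.2) • x‖ ≤ b : Set (ℕ × ℕ)) ⊆ cells p q N a b x := by
    intro u hu
    rw [Finset.mem_coe, Finset.mem_filter] at hu
    exact ⟨hW u hu.1, hu.2⟩
  exact_mod_cast Set.ncard_le_ncard this (cells_finite hp hq N a b x)

lemma mp_pow {p q : ℕ} {μ : Measure UnitAddCircle}
    (hμp : MeasurePreserving (fun x : UnitAddCircle => p • x) μ μ)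
    (hμq : MeasurePreserving (fun x : UnitAddCircle => q • x) μ μ) (i j : ℕ) :
    MeasurePreserving (fun x : UnitAddCircle => (p ^ i * q ^ j) • x) μ μ := by
  have h1 : ∀ (r : ℕ), MeasurePreserving (fun x : UnitAddCircle => r • x) μ μ → ∀ k : ℕ,
      MeasurePreserving (fun x : UnitAddCircle => r ^ k • x) μ μ := by
    intro r hr k
    induction k with
    | zero =>
      simp only [pow_zero, one_smul]
      exact MeasurePreserving.id μ
    | succ k ih =>
      have := hr.comp ih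
      have e : (fun x : UnitAddCircle => r ^ (k + 1) • x) =
          (fun x : UnitAddCircle => r • x) ∘ fun x : UnitAddCircle => r ^ k • x := by
        funext x
        simp only [Function.comp]
        rw [← mul_smul, ← pow_succ']
      rw [e]; exact this
  have := (h1 p hμp i).comp (h1 q hμq j)
  have e : (fun x : UnitAddCircle => (p ^ i * q ^ j) • x) =
      (fun x : UnitAddCircle => p ^ i • x) ∘ fun x : UnitAddCircle => q ^ j • x := by
    funext x
    simp only [Function.comp]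
    rw [← mul_smul]
  rw [e]; exact this

/-- `PointStmt`: the statement of the pointwise bound. -/
def PointStmt (p q : ℕ) : Prop :=
  ∃ C : ℝ, 0 < C ∧ ∀ A η : ℝ, 1 ≤ A → 0 < η → ∃ N₀ : ℝ, ∀ N : ℝ,
      N₀ ≤ N → ∀ x : UnitAddCircle,
        ((cells p q N (Real.exp (-(A * η * N))) (Real.exp (-(η * N))) x).ncard : ℝ) ≤
          C * A * η * N ^ 2

/-- the bound in the box, normalised -/
lemma unif {p q : ℕ} (hp : 2 ≤ p) (hq : 2 ≤ q) (hP : PointStmt p q) {A ε : ℝ} (hA : 1 ≤ A)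
    (hε : 0 < ε) : ∃ T₀ : ℝ, 0 < T₀ ∧ ∀ T : ℝ, T₀ ≤ T → ∃ W : Finset (ℕ × ℕ), 0 < (W.card : ℝ) ∧
      ∀ x : UnitAddCircle, ∀ [DecidablePred fun u : ℕ × ℕ =>
        Real.exp (-(A * T)) ≤ ‖(p ^ u.1 * q ^ u.2) • x‖ ∧
          ‖(p ^ u.1 * q ^ u.2) • x‖ ≤ Real.exp (-T)],
      ((W.filter fun u => Real.exp (-(A * T)) ≤ ‖(p ^ u.1 * q ^ u.2) • x‖ ∧
        ‖(p ^ u.1 * q ^ u.2) • x‖ ≤ Real.exp (-T)).card : ℝ) ≤ ε * W.card := by
  have hlp : 0 < Real.log p := Real.log_pos (by exact_mod_cast (by omega : 1 < p))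
  have hlq : 0 < Real.log q := Real.log_pos (by exact_mod_cast (by omega : 1 < q))
  obtain ⟨C, hC, h⟩ := hP
  set η : ℝ := ε / (4 * C * A * Real.log p * Real.log q) with hη
  have hη0 : 0 < η := by positivity
  obtain ⟨N₀, hN₀⟩ := h A η hA hη0
  refine ⟨η * (|N₀| + 1), by positivity, fun T hT => ?_⟩
  set N := T / η with hN
  have hN1 : |N₀| + 1 ≤ N := by rw [hN, le_div_iff₀ hη0]; linarith
  have hN0 : 0 < N := by have := abs_nonneg N₀; linarith
  have hηN : η * N = T := by rw [hN]; field_simp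
  obtain ⟨W, hW1, hW2, hW3⟩ := box hp hq hN0
  refine ⟨W, hW3, fun x _ => ?_⟩
  have h1 := hN₀ N (by have := le_abs_self N₀; linarith) x
  rw [mul_assoc A, hηN] at h1
  refine (filter_le hp hq h1 W hW1).trans ?_
  calc C * A * η * N ^ 2 = ε * (N ^ 2 / (4 * Real.log p * Real.log q)) := by
        rw [hη]; field_simp
    _ ≤ ε * W.card := mul_le_mul_of_nonneg_left hW2 hε.le

lemma norm_comm_smul (n : ℕ) (d : ℤ) (x : UnitAddCircle) : d • (n • x) = n • (d • x) := by
  rw [smul_comm]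

/-- **No mass at a single scale.** -/
theorem meas {p q : ℕ} (hp : 2 ≤ p) (hq : 2 ≤ q) (hP : PointStmt p q) {A ε : ℝ} (hA : 1 ≤ A)
    (hε : 0 < ε) : ∃ T₀ : ℝ, ∀ T : ℝ, T₀ ≤ T → ∀ μ : Measure UnitAddCircle,
      IsProbabilityMeasure μ → MeasurePreserving (fun x : UnitAddCircle => p • x) μ μ →
      MeasurePreserving (fun x : UnitAddCircle => q • x) μ μ → ∀ d : ℤ,
        μ.real {x | Real.exp (-(A * T)) ≤ ‖d • x‖ ∧ ‖d • x‖ ≤ Real.exp (-T)} ≤ ε := by
  classical
  obtain ⟨T₀, -, h⟩ := unif hp hq hP hA hε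
  refine ⟨T₀, fun T hT μ hμ hμp hμq d => ?_⟩
  obtain ⟨W, hW0, hW⟩ := h T hT
  set E : Set UnitAddCircle := {x | Real.exp (-(A * T)) ≤ ‖d • x‖ ∧ ‖d • x‖ ≤ Real.exp (-T)} with hE
  have hEm : MeasurableSet E := by
    apply IsClosed.measurableSet
    have hc : Continuous fun x : UnitAddCircle => ‖d • x‖ := by fun_prop
    exact (isClosed_le continuous_const hc).inter (isClosed_le hc continuous_const)
  have h1 : ∀ u : ℕ × ℕ, μ.real E = ∫ x, (E.indicator (fun _ => (1 : ℝ)) ((p ^ u.1 * q ^ u.2) • x)) ∂μ := by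
    intro u
    have hmp := mp_pow hμp hμq u.1 u.2
    have e1 : ∫ x, (E.indicator (fun _ => (1 : ℝ)) ((p ^ u.1 * q ^ u.2) • x)) ∂μ =
        ∫ x, E.indicator (fun _ => (1 : ℝ)) x ∂μ := by
      have h2 := integral_map (μ := μ) (φ := fun x : UnitAddCircle => (p ^ u.1 * q ^ u.2) • x)
        hmp.measurable.aemeasurable (f := E.indicator (fun _ => (1 : ℝ)))
        ((measurable_const.indicator hEm).aestronglyMeasurable)
      rw [hmp.map_eq] at h2
      exact h2.symm
    rw [e1, integral_indicator hEm]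
    simp
  have h3 : (W.card : ℝ) * μ.real E =
      ∫ x, ∑ u ∈ W, (E.indicator (fun _ => (1 : ℝ)) ((p ^ u.1 * q ^ u.2) • x)) ∂μ := by
    rw [integral_finsetSum, ← nsmul_eq_mul, ← Finset.sum_const]
    · exact Finset.sum_congr rfl fun u _ => h1 u
    · intro u _
      apply Integrable.of_bound (C := 1)
      · exact ((measurable_const.indicator hEm).comp (mp_pow hμp hμq u.1 u.2).measurable).aestronglyMeasurable
      · refine Filter.Eventually.of_forall fun x => ?_
        rw [Real.norm_of_nonneg (Set.indicator_nonneg (fun _ _ => zero_le_one) _)]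
        exact Set.indicator_le_self' (fun _ _ => zero_le_one) _ |>.trans le_rfl
  have h4 : ∀ x, ∑ u ∈ W, (E.indicator (fun _ => (1 : ℝ)) ((p ^ u.1 * q ^ u.2) • x)) ≤ ε * W.card := by
    intro x
    have e : ∑ u ∈ W, (E.indicator (fun _ => (1 : ℝ)) ((p ^ u.1 * q ^ u.2) • x)) =
        ((W.filter fun u => Real.exp (-(A * T)) ≤ ‖(p ^ u.1 * q ^ u.2) • (d • x)‖ ∧
          ‖(p ^ u.1 * q ^ u.2) • (d • x)‖ ≤ Real.exp (-T)).card : ℝ) := by
      rw [Finset.card_filter]
      push_cast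
      refine Finset.sum_congr rfl fun u _ => ?_
      rw [Set.indicator_apply]
      have : (p ^ u.1 * q ^ u.2) • x ∈ E ↔
          (Real.exp (-(A * T)) ≤ ‖(p ^ u.1 * q ^ u.2) • (d • x)‖ ∧
          ‖(p ^ u.1 * q ^ u.2) • (d • x)‖ ≤ Real.exp (-T)) := by
        rw [hE, Set.mem_ofPred_eq, norm_comm_smul]
      simp only [this]
    rw [e]
    exact hW (d • x)
  have h5 : (W.card : ℝ) * μ.real E ≤ ε * W.card := by
    rw [h3]
    calc _ ≤ ∫ _x, ε * W.card ∂μ := by
          apply integral_mono_of_nonneg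
          · exact Filter.Eventually.of_forall fun x => Finset.sum_nonneg fun u _ =>
              Set.indicator_nonneg (fun _ _ => zero_le_one) _
          · exact integrable_const _
          · exact Filter.Eventually.of_forall h4
      _ = ε * W.card := by simp
  have h6 : (W.card : ℝ) * μ.real E ≤ (W.card : ℝ) * ε := by linarith
  exact le_of_mul_le_mul_left h6 hW0

end Pool.Agent.R203.SC
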