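import Mathlib
import Pool.Agent.R203.SC.Meas

/-!
Periodic orbits: points of order `N` for `N` coprime to `p q`.
-/

set_option autoImplicit false
open Finset MeasureTheory

namespace Pool.Agent.R203.SC

/-- the orbit of `x` under the multiplications by `p` and `q` -/
def orb (p q : ℕ) (x : UnitAddCircle) : Set UnitAddCircle := {y | ∃ i j : ℕ, y = (p ^ i * q ^ j) • x}

lemma orb_tors {p q N : ℕ} {x : UnitAddCircle} (hx : N • x = 0) {y : UnitAddCircle}
    (hy : y ∈ orb p q x) : N • y = 0 := by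
  obtain ⟨i, j, rfl⟩ := hy
  rw [smul_comm, hx, smul_zero]

lemma orb_finite {p q N : ℕ} (hN : 0 < N) {x : UnitAddCircle} (hx : N • x = 0) :
    (orb p q x).Finite := by
  refine (AddCircle.finite_torsion (p := (1 : ℝ)) hN).subset fun y hy => ?_
  exact orb_tors hx hy

lemma tors_norm {N : ℕ} (hN : 0 < N) {z : UnitAddCircle} (h : N • z = 0) (hz : z ≠ 0) :
    1 / (N : ℝ) ≤ ‖z‖ := by
  obtain ⟨y, rfl⟩ := QuotientAddGroup.mk_surjective z
  have hNR : (0 : ℝ) < N := by exact_mod_cast hN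
  rw [show (QuotientAddGroup.mk y : UnitAddCircle) = ((y : ℝ) : UnitAddCircle) from rfl] at *
  rw [UnitAddCircle.norm_eq]
  have h1 : ((N * y : ℝ) : UnitAddCircle) = 0 := by
    rw [← nsmul_eq_mul, AddCircle.coe_nsmul]; exact h
  rw [AddCircle.coe_eq_zero_iff] at h1
  obtain ⟨k, hk⟩ := h1
  simp only [zsmul_eq_mul, mul_one] at hk
  have h2 : (N : ℝ) * (y - round y) = ((k - N * round y : ℤ) : ℝ) := by
    push_cast; rw [hk]; ring
  have h3 : (k - N * round y : ℤ) ≠ 0 := by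
    intro h0
    rw [h0, Int.cast_zero, mul_eq_zero] at h2
    rcases h2 with h2 | h2
    · linarith
    · apply hz
      have : y = round y := by linarith
      rw [this, AddCircle.coe_eq_zero_iff]
      exact ⟨round y, by simp⟩
  have h4 : (1 : ℝ) ≤ |((k - N * round y : ℤ) : ℝ)| := by
    rw [← Int.cast_abs]
    exact_mod_cast Int.one_le_abs h3
  rw [← h2, abs_mul, abs_of_pos hNR] at h4
  rw [div_le_iff₀ hNR]
  linarith

lemma coprime_inj {D N : ℕ} (h : Nat.Coprime D N) {y y' : UnitAddCircle} (hy : N • y = 0)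
    (hy' : N • y' = 0) (he : D • y = D • y') : y = y' := by
  have h1 : D • (y - y') = 0 := by rw [smul_sub, he, sub_self]
  have h2 : N • (y - y') = 0 := by rw [smul_sub, hy, hy', sub_self]
  have h3 : addOrderOf (y - y') ∣ 1 := by
    have := Nat.dvd_gcd (addOrderOf_dvd_of_nsmul_eq_zero h1) (addOrderOf_dvd_of_nsmul_eq_zero h2)
    rwa [h] at this
  have h4 := AddMonoid.addOrderOf_eq_one_iff.1 (Nat.dvd_one.1 h3)
  exact sub_eq_zero.1 h4

lemma orb_large {p q N K : ℕ} (hp : 2 ≤ p) {x : UnitAddCircle} (hx : addOrderOf x = N)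
    (hN : 0 < N) (hK : p ^ K < N) : K < (orb p q x).ncard := by
  have hx0 : N • x = 0 := by rw [← hx]; exact addOrderOf_nsmul_eq_zero x
  have hinj : Set.InjOn (fun i : ℕ => p ^ i • x) (Finset.range (K + 1) : Set ℕ) := by
    have key : ∀ i j : ℕ, i < j → j ≤ K → p ^ i • x ≠ p ^ j • x := by
      intro i j hij hjK he
      have h1 : (p ^ j - p ^ i) • x = 0 := by
        rw [sub_nsmul _ (Nat.pow_le_pow_right (by omega) hij.le), he]
        simp
      have h2 := addOrderOf_dvd_of_nsmul_eq_zero h1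
      rw [hx] at h2
      have h3 : p ^ i < p ^ j := Nat.pow_lt_pow_right (by omega) hij
      have h4 : p ^ j ≤ p ^ K := Nat.pow_le_pow_right (by omega) hjK
      have h5 := Nat.le_of_dvd (by omega) h2
      have h6 : 0 < p ^ i := by positivity
      omega
    intro i hi j hj hij
    simp only [Finset.coe_range, Set.mem_Iio] at hi hj
    rcases lt_trichotomy i j with h | h | h
    · exact absurd hij (key i j h (by omega))
    · exact h
    · exact absurd hij.symm (key j i h (by omega))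
  have h1 : ((fun i : ℕ => p ^ i • x) '' (Finset.range (K + 1) : Set ℕ)) ⊆ orb p q x := by
    rintro _ ⟨i, -, rfl⟩
    exact ⟨i, 0, by simp⟩
  have h2 := Set.ncard_le_ncard h1 (orb_finite hN hx0)
  rw [Set.InjOn.ncard_image hinj, Set.ncard_coe_finset, Finset.card_range] at h2
  omega

/-- **Linear combinations of the points of a periodic orbit.** -/
theorem tuples {p q : ℕ} (hp : 2 ≤ p) (hq : 2 ≤ q) (hP : PointStmt p q) {δ ε : ℝ} (hδ : 0 < δ)
    (hε : 0 < ε) : ∃ N₀ : ℕ, ∀ N : ℕ, N₀ ≤ N → Nat.Coprime N (p * q) → ∀ x : UnitAddCircle,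
      addOrderOf x = N → ∀ (k : ℕ) (a : Fin k → ℤ),
        ({y : Fin k → UnitAddCircle | (∀ i, y i ∈ orb p q x) ∧ ∑ i, a i • y i ≠ 0 ∧
          ‖∑ i, a i • y i‖ ≤ (N : ℝ) ^ (-δ)}.ncard : ℝ) ≤ ε * ((orb p q x).ncard : ℝ) ^ k := by
  classical
  set δ1 : ℝ := min δ 1 with hδ1
  have hδ10 : 0 < δ1 := lt_min hδ one_pos
  have hδ11 : δ1 ≤ 1 := min_le_right _ _
  have hA : 1 ≤ 1 / δ1 := by rw [le_div_iff₀ hδ10]; linarith
  obtain ⟨T₀, hT₀, h⟩ := unif hp hq hP hA hε
  refine ⟨⌈Real.exp (T₀ / δ1)⌉₊ + 1, fun N hN hco x hx k a => ?_⟩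
  have hN0 : 0 < N := by omega
  have hNR : (0 : ℝ) < N := by exact_mod_cast hN0
  have hN1 : (1 : ℝ) ≤ N := by exact_mod_cast hN0
  have hx0 : N • x = 0 := by rw [← hx]; exact addOrderOf_nsmul_eq_zero x
  have hexp : Real.exp (T₀ / δ1) ≤ N := by
    have h1 := Nat.le_ceil (Real.exp (T₀ / δ1))
    have h2 : ((⌈Real.exp (T₀ / δ1)⌉₊ : ℕ) : ℝ) ≤ N := by exact_mod_cast (by omega : _ ≤ N)
    linarith
  set T : ℝ := δ1 * Real.log N with hT
  have hTT : T₀ ≤ T := by
    have h1 : T₀ / δ1 ≤ Real.log N := by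
      rw [← Real.log_exp (T₀ / δ1)]
      exact Real.log_le_log (Real.exp_pos _) hexp
    rw [div_le_iff₀ hδ10] at h1
    rw [hT]; linarith
  have hAT : Real.exp (-(1 / δ1 * T)) = 1 / N := by
    have : 1 / δ1 * T = Real.log N := by rw [hT]; field_simp
    rw [this, Real.exp_neg, Real.exp_log hNR, one_div]
  have hexpT : (N : ℝ) ^ (-δ) ≤ Real.exp (-T) := by
    have h1 : Real.exp (-T) = (N : ℝ) ^ (-δ1) := by
      rw [Real.rpow_def_of_pos hNR, hT]; congr 1; ring
    rw [h1]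
    exact Real.rpow_le_rpow_of_exponent_le hN1 (by have := min_le_left δ 1; linarith)
  obtain ⟨W, hW0, hW⟩ := h T hTT
  set Of := (orb_finite (p := p) (q := q) hN0 hx0).toFinset with hOf
  have hmemO : ∀ y, y ∈ Of ↔ y ∈ orb p q x := fun y => by rw [hOf, Set.Finite.mem_toFinset]
  have hcardO : (Of.card : ℝ) = ((orb p q x).ncard : ℝ) := by
    rw [hOf, Set.ncard_eq_toFinset_card _ (orb_finite (p := p) (q := q) hN0 hx0)]
  set P : Finset (Fin k → UnitAddCircle) := Fintype.piFinset (fun _ => Of) with hPdef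
  have hcardP : (P.card : ℝ) = ((orb p q x).ncard : ℝ) ^ k := by
    rw [hPdef, Fintype.card_piFinset]
    simp only [Finset.prod_const, Finset.card_univ, Fintype.card_fin]
    push_cast
    rw [hcardO]
  set z : (Fin k → UnitAddCircle) → UnitAddCircle := fun y => ∑ i, a i • y i with hz
  have hztors : ∀ y ∈ P, N • z y = 0 := by
    intro y hy
    rw [hPdef, Fintype.mem_piFinset] at hy
    rw [hz]
    simp only
    rw [Finset.smul_sum]
    refine Finset.sum_eq_zero fun i _ => ?_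
    rw [smul_comm, orb_tors hx0 ((hmemO _).1 (hy i)), smul_zero]
  -- the set
  set B := P.filter fun y => Real.exp (-(1 / δ1 * T)) ≤ ‖z y‖ ∧ ‖z y‖ ≤ Real.exp (-T) with hB
  have hsub : ({y : Fin k → UnitAddCircle | (∀ i, y i ∈ orb p q x) ∧ ∑ i, a i • y i ≠ 0 ∧
      ‖∑ i, a i • y i‖ ≤ (N : ℝ) ^ (-δ)}.ncard : ℝ) ≤ B.card := by
    rw [← Set.ncard_coe_finset]
    refine Nat.cast_le.2 (Set.ncard_le_ncard ?_ (Finset.finite_toSet _))
    rintro y ⟨h1, h2, h3⟩
    have hy : y ∈ P := by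
      rw [hPdef, Fintype.mem_piFinset]
      exact fun i => (hmemO _).2 (h1 i)
    rw [Finset.mem_coe, hB, Finset.mem_filter]
    refine ⟨hy, ?_, h3.trans hexpT⟩
    rw [hAT]
    exact tors_norm hN0 (hztors y hy) h2
  refine hsub.trans ?_
  -- the permutations
  have hperm : ∀ u : ℕ × ℕ, (B.card : ℝ) = ∑ y ∈ P,
      (if Real.exp (-(1 / δ1 * T)) ≤ ‖(p ^ u.1 * q ^ u.2) • z y‖ ∧
        ‖(p ^ u.1 * q ^ u.2) • z y‖ ≤ Real.exp (-T) then (1 : ℝ) else 0) := by
    intro u
    set D := p ^ u.1 * q ^ u.2 with hD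
    have hDco : Nat.Coprime D N := by
      have h1 : Nat.Coprime p N := (Nat.Coprime.coprime_mul_right_right hco).symm
      have h2 : Nat.Coprime q N := (Nat.Coprime.coprime_mul_left_right hco).symm
      exact Nat.Coprime.mul_left (Nat.Coprime.pow_left _ h1) (Nat.Coprime.pow_left _ h2)
    set Φ : (Fin k → UnitAddCircle) → (Fin k → UnitAddCircle) := fun y i => D • y i with hΦ
    have hmaps : ∀ y ∈ P, Φ y ∈ P := by
      intro y hy
      rw [hPdef, Fintype.mem_piFinset] at hy ⊢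
      intro i
      obtain ⟨i1, j1, h1⟩ := (hmemO _).1 (hy i)
      refine (hmemO _).2 ⟨u.1 + i1, u.2 + j1, ?_⟩
      rw [hΦ]
      simp only
      rw [h1, ← mul_smul, hD]
      congr 1
      rw [pow_add, pow_add]; ring
    have hinj : Set.InjOn Φ (P : Set (Fin k → UnitAddCircle)) := by
      intro y hy y' hy' he
      rw [Finset.mem_coe, hPdef, Fintype.mem_piFinset] at hy hy'
      funext i
      exact coprime_inj hDco (orb_tors hx0 ((hmemO _).1 (hy i)))
        (orb_tors hx0 ((hmemO _).1 (hy' i))) (congrFun he i)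
    have himg : P.image Φ = P := by
      apply Finset.eq_of_subset_of_card_le
      · intro y hy
        obtain ⟨y', hy', rfl⟩ := Finset.mem_image.1 hy
        exact hmaps y' hy'
      · rw [Finset.card_image_of_injOn hinj]
    have hzΦ : ∀ y, z (Φ y) = D • z y := by
      intro y
      rw [hz]
      simp only
      rw [Finset.smul_sum]
      exact Finset.sum_congr rfl fun i _ => smul_comm _ _ _
    have e1 : (B.card : ℝ) = ∑ y ∈ P, (if Real.exp (-(1 / δ1 * T)) ≤ ‖z y‖ ∧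
        ‖z y‖ ≤ Real.exp (-T) then (1 : ℝ) else 0) := by
      rw [hB, Finset.card_filter]
      push_cast
      rfl
    rw [e1]
    conv_lhs => rw [← himg]
    rw [Finset.sum_image hinj]
    exact Finset.sum_congr rfl fun y _ => by rw [hzΦ]
  have h1 : (W.card : ℝ) * B.card = ∑ y ∈ P, ∑ u ∈ W,
      (if Real.exp (-(1 / δ1 * T)) ≤ ‖(p ^ u.1 * q ^ u.2) • z y‖ ∧
        ‖(p ^ u.1 * q ^ u.2) • z y‖ ≤ Real.exp (-T) then (1 : ℝ) else 0) := by
    rw [Finset.sum_comm, ← nsmul_eq_mul, ← Finset.sum_const]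
    exact Finset.sum_congr rfl fun u _ => hperm u
  have h2 : ∀ y ∈ P, ∑ u ∈ W, (if Real.exp (-(1 / δ1 * T)) ≤ ‖(p ^ u.1 * q ^ u.2) • z y‖ ∧
        ‖(p ^ u.1 * q ^ u.2) • z y‖ ≤ Real.exp (-T) then (1 : ℝ) else 0) ≤ ε * W.card := by
    intro y _
    have := hW (z y)
    rw [Finset.card_filter] at this
    push_cast at this
    exact this
  have h3 : (W.card : ℝ) * B.card ≤ (W.card : ℝ) * (ε * P.card) := by
    rw [h1]
    refine (Finset.sum_le_sum h2).trans ?_
    rw [Finset.sum_const, nsmul_eq_mul]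
    apply le_of_eq; ring
  have h4 := le_of_mul_le_mul_left h3 hW0
  rwa [hcardP] at h4

/-- **No concentration of periodic orbits on short arcs.** -/
theorem arcs {p q : ℕ} (hp : 2 ≤ p) (hq : 2 ≤ q) (hP : PointStmt p q) {δ ε : ℝ} (hδ : 0 < δ)
    (hε : 0 < ε) : ∃ N₀ : ℕ, ∀ N : ℕ, N₀ ≤ N → Nat.Coprime N (p * q) → ∀ x : UnitAddCircle,
      addOrderOf x = N → ∀ c : UnitAddCircle,
        ({y | y ∈ orb p q x ∧ ‖y - c‖ ≤ (N : ℝ) ^ (-δ)}.ncard : ℝ) ≤
          ε * ((orb p q x).ncard : ℝ) := by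
  classical
  obtain ⟨N₁, hN₁⟩ := tuples hp hq hP (half_pos hδ) (show 0 < ε ^ 2 / 2 by positivity)
  set K := ⌈2 / ε ^ 2⌉₊ with hK
  refine ⟨max (max N₁ (p ^ K + 1)) (⌈(2 : ℝ) ^ (2 / δ)⌉₊ + 1), fun N hN hco x hx c => ?_⟩
  have hNa : N₁ ≤ N := (le_max_left _ _).trans ((le_max_left _ _).trans hN)
  have hNb : p ^ K + 1 ≤ N := (le_max_right _ _).trans ((le_max_left _ _).trans hN)
  have hNc : ⌈(2 : ℝ) ^ (2 / δ)⌉₊ + 1 ≤ N := (le_max_right _ _).trans hN
  have hN0 : 0 < N := by omega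
  have hNR : (0 : ℝ) < N := by exact_mod_cast hN0
  have hx0 : N • x = 0 := by rw [← hx]; exact addOrderOf_nsmul_eq_zero x
  have h2δ : 2 * (N : ℝ) ^ (-δ) ≤ (N : ℝ) ^ (-(δ / 2)) := by
    have h1 : (2 : ℝ) ^ (2 / δ) ≤ N := by
      have h1 := Nat.le_ceil ((2 : ℝ) ^ (2 / δ))
      have h2 : ((⌈(2 : ℝ) ^ (2 / δ)⌉₊ : ℕ) : ℝ) ≤ N := by exact_mod_cast (by omega : _ ≤ N)
      linarith
    have h2 : (2 : ℝ) ≤ (N : ℝ) ^ (δ / 2) := by
      have h3 := Real.rpow_le_rpow (by positivity) h1 (show 0 ≤ δ / 2 by positivity)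
      rw [← Real.rpow_mul (by norm_num)] at h3
      have e : 2 / δ * (δ / 2) = 1 := by field_simp
      rw [e, Real.rpow_one] at h3
      exact h3
    have h4 : (N : ℝ) ^ (-(δ / 2)) = (N : ℝ) ^ (δ / 2) * (N : ℝ) ^ (-δ) := by
      rw [← Real.rpow_add hNR]; congr 1; ring
    rw [h4]
    exact mul_le_mul_of_nonneg_right h2 (Real.rpow_nonneg hNR.le _)
  have horb := orb_finite (p := p) (q := q) hN0 hx0
  set J : Set UnitAddCircle := {y | y ∈ orb p q x ∧ ‖y - c‖ ≤ (N : ℝ) ^ (-δ)} with hJ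
  have hJf : J.Finite := horb.subset fun y hy => hy.1
  have ht := hN₁ N hNa hco x hx 2 ![1, -1]
  set S : Set (Fin 2 → UnitAddCircle) := {y | (∀ i, y i ∈ orb p q x) ∧
    ∑ i, (![1, -1] : Fin 2 → ℤ) i • y i ≠ 0 ∧
    ‖∑ i, (![1, -1] : Fin 2 → ℤ) i • y i‖ ≤ (N : ℝ) ^ (-(δ / 2))} with hS
  have hSf : S.Finite := by
    refine (Set.Finite.pi fun _ : Fin 2 => horb).subset fun y hy => ?_
    simp only [Set.mem_pi, Set.mem_univ, forall_const]
    exact hy.1
  set Jf := hJf.toFinset with hJfdef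
  -- the pairs
  have hpairs : Jf.card * Jf.card ≤ Jf.card + S.ncard := by
    have h1 : (Jf ×ˢ Jf) ⊆ Jf.image (fun y => (y, y)) ∪
        hSf.toFinset.image (fun y => (y 0, y 1)) := by
      rintro ⟨y, y'⟩ hyy
      rw [Finset.mem_product] at hyy
      obtain ⟨hy, hy'⟩ := hyy
      rw [hJfdef, Set.Finite.mem_toFinset] at hy hy'
      simp only at hy hy'
      rw [Finset.mem_union, Finset.mem_image, Finset.mem_image]
      by_cases he : y = y'
      · left
        exact ⟨y, by rw [hJfdef, Set.Finite.mem_toFinset]; exact hy, by rw [← he]⟩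
      · right
        refine ⟨![y, y'], ?_, by simp⟩
        rw [Set.Finite.mem_toFinset, hS]
        have e : ∑ i, (![1, -1] : Fin 2 → ℤ) i • (![y, y'] : Fin 2 → UnitAddCircle) i = y - y' := by
          rw [Fin.sum_univ_two]
          simp [sub_eq_add_neg]
        refine ⟨?_, ?_, ?_⟩
        · intro i
          fin_cases i
          · exact hy.1
          · exact hy'.1
        · rw [e]; exact sub_ne_zero.2 he
        · rw [e]
          have e2 : y - y' = (y - c) - (y' - c) := by abel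
          rw [e2]
          refine (norm_sub_le _ _).trans ?_
          have h3 := hy.2
          have h4 := hy'.2
          linarith
    calc Jf.card * Jf.card = (Jf ×ˢ Jf).card := (Finset.card_product _ _).symm
      _ ≤ _ := Finset.card_le_card h1
      _ ≤ (Jf.image (fun y => (y, y))).card + (hSf.toFinset.image (fun y => (y 0, y 1))).card :=
          Finset.card_union_le _ _
      _ ≤ Jf.card + S.ncard := by
          rw [Set.ncard_eq_toFinset_card _ hSf]
          exact add_le_add Finset.card_image_le Finset.card_image_le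
  have hcJ : (J.ncard : ℝ) = Jf.card := by rw [Set.ncard_eq_toFinset_card _ hJf]
  have hJO : (Jf.card : ℝ) ≤ ((orb p q x).ncard : ℝ) := by
    rw [← hcJ]
    exact_mod_cast Set.ncard_le_ncard (show J ⊆ orb p q x from fun y hy => hy.1) horb
  have hbig : 2 / ε ^ 2 ≤ ((orb p q x).ncard : ℝ) := by
    have h1 := orb_large (q := q) hp hx hN0 (K := K) (by omega)
    have h2 : (K : ℝ) ≤ ((orb p q x).ncard : ℝ) := by exact_mod_cast h1.le
    exact (Nat.le_ceil _).trans h2
  rw [hcJ]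
  set o : ℝ := ((orb p q x).ncard : ℝ) with ho
  have ho0 : 0 ≤ o := Nat.cast_nonneg _
  have h5 : (Jf.card : ℝ) * Jf.card ≤ o + ε ^ 2 / 2 * o ^ 2 := by
    have : ((Jf.card * Jf.card : ℕ) : ℝ) ≤ ((Jf.card + S.ncard : ℕ) : ℝ) := by exact_mod_cast hpairs
    push_cast at this
    linarith
  have h6 : o ≤ ε ^ 2 / 2 * o ^ 2 := by
    rw [div_le_iff₀ (by positivity)] at hbig
    nlinarith
  have h7 : (Jf.card : ℝ) ^ 2 ≤ (ε * o) ^ 2 := by nlinarith
  exact (pow_le_pow_iff_left₀ (Nat.cast_nonneg _) (by positivity) two_ne_zero).1 h7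

end Pool.Agent.R203.SC
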